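import Mathlib
import Pool.Agent.Helper35.AG.Arcs

/-!
ER: Gibbs' inequality for dyadic cells (B1).
-/

set_option autoImplicit false

open MeasureTheory Finset Filter
open Helper35.AG (Tor idx ent Inv arc)

namespace Helper66.ER

theorem vol_cell (K i : ℕ) (hi : i < 2 ^ K) :
    (volume : Measure Tor).real {x | idx K x = i} = 1 / 2 ^ K := by
  have h2 : (0 : ℝ) < 2 ^ K := by positivity
  have key : ∀ j < 2 ^ K, (volume : Measure Tor).real {x | idx K x = j} =
      (volume : Measure Tor).real {x | idx K x = 0} := by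
    intro j hj
    have h1 : {x : Tor | idx K x = j} =
        (fun x => x + -((j / 2 ^ K : ℝ) : Tor)) ⁻¹' {x | idx K x = 0} := by
      rw [← Helper35.AG.arc_eq hj, ← Helper35.AG.arc_eq (i := 0) (by positivity)]
      ext x
      constructor
      · rintro ⟨u, ⟨h3, h4⟩, rfl⟩
        refine ⟨u - j / 2 ^ K, ⟨?_, ?_⟩, ?_⟩
        · rw [Nat.cast_zero, zero_div]
          linarith
        · rw [add_div] at h4
          rw [Nat.cast_zero, zero_add]
          linarith
        · change ((u - j / 2 ^ K : ℝ) : Tor) = (u : Tor) + -((j / 2 ^ K : ℝ) : Tor)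
          rw [AddCircle.coe_sub, sub_eq_add_neg]
      · rintro ⟨u, ⟨h3, h4⟩, h5⟩
        refine ⟨u + j / 2 ^ K, ⟨?_, ?_⟩, ?_⟩
        · rw [Nat.cast_zero, zero_div] at h3
          linarith
        · rw [add_div]
          rw [Nat.cast_zero, zero_add] at h4
          linarith
        · change ((u + j / 2 ^ K : ℝ) : Tor) = x
          change (u : Tor) = x + -((j / 2 ^ K : ℝ) : Tor) at h5
          rw [AddCircle.coe_add, h5, neg_add_cancel_right]
    rw [h1, measureReal_def, measureReal_def, measure_preimage_add_right]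
  have : IsProbabilityMeasure (volume : Measure Tor) :=
    ⟨by rw [AddCircle.measure_univ, ENNReal.ofReal_one]⟩
  have h3 := Helper35.AG.sum_cells (volume : Measure Tor) K
  rw [Finset.sum_congr rfl fun j hj => key j (Finset.mem_range.1 hj), Finset.sum_const,
    Finset.card_range, nsmul_eq_mul] at h3
  rw [key i hi, eq_div_iff h2.ne', mul_comm]
  push_cast at h3
  exact h3

theorem integral_idx (μ : Measure Tor) [IsProbabilityMeasure μ] (K : ℕ) (g : ℕ → ℝ) :
    ∫ x, g (idx K x) ∂μ = ∑ i ∈ range (2 ^ K), μ.real {x | idx K x = i} * g i := by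
  have h1 : (fun x : Tor => g (idx K x)) = fun x => ∑ i ∈ range (2 ^ K),
      ({x : Tor | idx K x = i}.indicator (fun _ => g i) x) := by
    funext x
    rw [Finset.sum_eq_single (idx K x)]
    · rw [Set.indicator_of_mem (by rfl)]
    · intro i _ hi
      rw [Set.indicator_of_notMem]
      exact fun h => hi h.symm
    · exact fun h => absurd (Finset.mem_range.2 (Helper35.AG.idx_lt K x)) h
  rw [h1, integral_finsetSum]
  · refine Finset.sum_congr rfl fun i _ => ?_
    rw [integral_indicator_const _ (Helper35.AG.measurableSet_idx K i), smul_eq_mul]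
  · exact fun i _ => (integrable_const _).indicator (Helper35.AG.measurableSet_idx K i)

theorem sum_setIntegral (K : ℕ) (F : Tor → ℝ) (hF : Integrable F) :
    ∑ i ∈ range (2 ^ K), ∫ x in {x : Tor | idx K x = i}, F x = ∫ x, F x := by
  have h1 : (fun x : Tor => F x) = fun x => ∑ i ∈ range (2 ^ K),
      ({x : Tor | idx K x = i}.indicator F x) := by
    funext x
    rw [Finset.sum_eq_single (idx K x)]
    · rw [Set.indicator_of_mem (by rfl)]
    · intro i _ hi
      rw [Set.indicator_of_notMem]
      exact fun h => hi h.symm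
    · exact fun h => absurd (Finset.mem_range.2 (Helper35.AG.idx_lt K x)) h
  rw [h1, integral_finsetSum]
  · refine Finset.sum_congr rfl fun i _ => ?_
    rw [integral_indicator (Helper35.AG.measurableSet_idx K i), ← h1]
  · exact fun i _ => hF.indicator (Helper35.AG.measurableSet_idx K i)

/-- Gibbs' inequality with nonnegative masses -/
theorem gibbs0 (S : Finset ℕ) (m p : ℕ → ℝ) (hm : ∀ i ∈ S, 0 ≤ m i) (hp : ∀ i ∈ S, 0 < p i)
    (hm1 : ∑ i ∈ S, m i = 1) (hp1 : ∑ i ∈ S, p i ≤ 1) :
    ∑ i ∈ S, Real.negMulLog (m i) ≤ - ∑ i ∈ S, m i * Real.log (p i) := by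
  have h1 : ∀ i ∈ S, Real.negMulLog (m i) + m i * Real.log (p i) ≤ p i - m i := by
    intro i hi
    have b := hp i hi
    rcases eq_or_lt_of_le (hm i hi) with a | a
    · rw [← a]
      simp [b.le]
    have h2 := Real.log_le_sub_one_of_pos (div_pos b a)
    rw [Real.log_div b.ne' a.ne'] at h2
    unfold Real.negMulLog
    have h3 : m i * (Real.log (p i) - Real.log (m i)) ≤ m i * (p i / m i - 1) :=
      mul_le_mul_of_nonneg_left h2 a.le
    have h4 : m i * (p i / m i - 1) = p i - m i := by
      field_simp
    rw [h4] at h3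
    linarith
  have h2 := Finset.sum_le_sum h1
  rw [Finset.sum_add_distrib, Finset.sum_sub_distrib, hm1] at h2
  linarith

/-- B1 (helper28). -/
theorem ent_le_gibbs {μ : Measure Tor} [IsProbabilityMeasure μ] (K : ℕ) (F : Tor → ℝ)
    (hc : Continuous F) (h0 : ∀ x, 0 < F x) (A : ℝ)
    (hA : ∀ x y : Tor, idx K x = idx K y → Real.log (F x) - Real.log (F y) ≤ A) :
    ent μ K ≤ K * Real.log 2 + Real.log (∫ x, F x) - ∫ x, Real.log (F x) ∂μ + A := by
  have h2 : (0 : ℝ) < 2 ^ K := by positivity
  have hFi : Integrable F (volume : Measure Tor) :=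
    hc.integrable_of_hasCompactSupport (HasCompactSupport.of_compactSpace F)
  obtain ⟨I, hI⟩ : ∃ I : ℕ → ℝ, ∀ i, I i = ∫ x in {x : Tor | idx K x = i}, F x :=
    ⟨_, fun _ => rfl⟩
  -- lower bound on a cell
  have hlow : ∀ x : Tor, Real.exp (Real.log (F x) - A) / 2 ^ K ≤ I (idx K x) := by
    intro x
    rw [hI]
    have h3 : ∫ _ in {y : Tor | idx K y = idx K x}, Real.exp (Real.log (F x) - A) ≤
        ∫ y in {y : Tor | idx K y = idx K x}, F y := by
      refine setIntegral_mono_on (integrable_const _) hFi.integrableOn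
        (Helper35.AG.measurableSet_idx K _) fun y hy => ?_
      have h4 := hA x y hy.symm
      calc Real.exp (Real.log (F x) - A) ≤ Real.exp (Real.log (F y)) :=
            Real.exp_le_exp.2 (by linarith)
        _ = F y := Real.exp_log (h0 y)
    rw [setIntegral_const, vol_cell K _ (Helper35.AG.idx_lt K x), smul_eq_mul] at h3
    calc _ = 1 / 2 ^ K * Real.exp (Real.log (F x) - A) := by ring
      _ ≤ _ := h3
  have hex : ∀ i < 2 ^ K, ∃ x : Tor, idx K x = i := by
    intro i hi
    by_contra hne
    push Not at hne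
    have h3 := vol_cell K i hi
    rw [show {x : Tor | idx K x = i} = ∅ from
      Set.eq_empty_iff_forall_notMem.2 fun x hx => hne x hx, measureReal_empty] at h3
    have h4 : (0 : ℝ) < 1 / 2 ^ K := by positivity
    linarith
  have hIpos : ∀ i < 2 ^ K, 0 < I i := by
    intro i hi
    obtain ⟨x, rfl⟩ := hex i hi
    refine lt_of_lt_of_le ?_ (hlow x)
    positivity
  have hsum : ∑ i ∈ range (2 ^ K), I i = ∫ x, F x := by
    rw [← sum_setIntegral K F hFi]
    exact Finset.sum_congr rfl fun i _ => hI i
  have hZ : 0 < ∫ x, F x := by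
    rw [← hsum]
    exact Finset.sum_pos (fun i hi => hIpos i (Finset.mem_range.1 hi))
      ⟨0, Finset.mem_range.2 (by positivity)⟩
  have hG := gibbs0 (range (2 ^ K)) (fun i => μ.real {x | idx K x = i})
    (fun i => I i / ∫ x, F x) (fun i _ => measureReal_nonneg)
    (fun i hi => div_pos (hIpos i (Finset.mem_range.1 hi)) hZ) (Helper35.AG.sum_cells μ K)
    (by rw [← Finset.sum_div, hsum, div_self hZ.ne'])
  have hlogF : Integrable (fun x => Real.log (F x)) μ :=
    (hc.log fun x => (h0 x).ne').integrable_of_hasCompactSupport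
      (HasCompactSupport.of_compactSpace _)
  have hbd : ∫ x, Real.log (F x) ∂μ ≤
      ∫ x, (A + K * Real.log 2 + Real.log (I (idx K x))) ∂μ := by
    refine integral_mono hlogF ?_ fun x => ?_
    · refine (integrable_const _).add ?_
      have : (fun x : Tor => Real.log (I (idx K x))) = fun x => ∑ i ∈ range (2 ^ K),
          ({x : Tor | idx K x = i}.indicator (fun _ => Real.log (I i)) x) := by
        funext x
        rw [Finset.sum_eq_single (idx K x)]
        · rw [Set.indicator_of_mem (by rfl)]
        · intro i _ hi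
          rw [Set.indicator_of_notMem]
          exact fun h => hi h.symm
        · exact fun h => absurd (Finset.mem_range.2 (Helper35.AG.idx_lt K x)) h
      rw [this]
      exact integrable_finsetSum _ fun i _ =>
        (integrable_const _).indicator (Helper35.AG.measurableSet_idx K i)
    · have h3 := Real.log_le_log (by positivity) (hlow x)
      rw [Real.log_div (Real.exp_pos _).ne' h2.ne', Real.log_exp, Real.log_pow] at h3
      change Real.log (F x) ≤ A + K * Real.log 2 + Real.log (I (idx K x))
      linarith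
  rw [integral_idx μ K fun i => A + K * Real.log 2 + Real.log (I i)] at hbd
  have h5 : ∑ i ∈ range (2 ^ K), μ.real {x | idx K x = i} *
      (A + K * Real.log 2 + Real.log (I i)) = A + K * Real.log 2 + Real.log (∫ x, F x) +
      ∑ i ∈ range (2 ^ K), μ.real {x | idx K x = i} * Real.log (I i / ∫ x, F x) := by
    have h6 : ∀ i ∈ range (2 ^ K), μ.real {x | idx K x = i} *
        (A + K * Real.log 2 + Real.log (I i)) = μ.real {x | idx K x = i} *
        (A + K * Real.log 2 + Real.log (∫ x, F x)) +
        μ.real {x | idx K x = i} * Real.log (I i / ∫ x, F x) := by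
      intro i hi
      rw [Real.log_div (hIpos i (Finset.mem_range.1 hi)).ne' hZ.ne']
      ring
    rw [Finset.sum_congr rfl h6, Finset.sum_add_distrib, ← Finset.sum_mul,
      Helper35.AG.sum_cells μ K, one_mul]
  rw [h5] at hbd
  unfold Helper35.AG.ent
  linarith

end Helper66.ER
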