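import Mathlib
import Pool.Agent.Helper66.ER.Basic

/-!
ER: the test product varies little on dyadic cells (B3).
-/

set_option autoImplicit false

open MeasureTheory Finset Filter

namespace Helper66.ER

theorem norm_fourier_sub_one_le (n : ℕ) (z : Tor) :
    ‖(fourier (n : ℤ) z : ℂ) - 1‖ ≤ 2 * Real.pi * n * ‖z‖ := by
  induction z using QuotientAddGroup.induction_on with
  | H t =>
    have e1 : ‖((t : ℝ) : Tor)‖ = |t - round t| := UnitAddCircle.norm_eq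
    have e2 : ((t : ℝ) : Tor) = ((t - round t : ℝ) : Tor) := by
      rw [AddCircle.coe_sub]
      have h0 : (((round t : ℤ) : ℝ) : Tor) = 0 := by
        rw [AddCircle.coe_eq_zero_iff]
        exact ⟨round t, by simp⟩
      rw [h0, sub_zero]
    have e3 : (fourier (n : ℤ) ((t : ℝ) : Tor) : ℂ) =
        Complex.exp (Complex.I * ((2 * Real.pi * n * (t - round t) : ℝ) : ℂ)) := by
      rw [e2, fourier_coe_apply]
      congr 1
      push_cast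
      ring
    have e4 : ‖((t : ℝ) : Tor)‖ = ‖(QuotientAddGroup.mk t : Tor)‖ := rfl
    rw [← e4, e1]
    have e5 : (fourier (n : ℤ) (QuotientAddGroup.mk t : Tor) : ℂ) =
      fourier (n : ℤ) ((t : ℝ) : Tor) := rfl
    rw [e5, e3]
    refine Real.norm_exp_I_mul_ofReal_sub_one_le.trans ?_
    rw [Real.norm_eq_abs, abs_mul, abs_of_nonneg (by positivity)]

theorem fourier_lip (n : ℕ) (x y : Tor) :
    ‖(fourier (n : ℤ) x : ℂ) - fourier (n : ℤ) y‖ ≤ 2 * Real.pi * n * ‖x - y‖ := by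
  have h1 : (fourier (n : ℤ) x : ℂ) = fourier (n : ℤ) (x - y) * fourier (n : ℤ) y := by
    rw [fourier_apply, fourier_apply, fourier_apply, ← Circle.coe_mul, ← AddCircle.toCircle_add,
      ← smul_add, sub_add_cancel]
  rw [h1]
  have h2 : (fourier (n : ℤ) (x - y) : ℂ) * fourier (n : ℤ) y - fourier (n : ℤ) y =
      ((fourier (n : ℤ) (x - y) : ℂ) - 1) * fourier (n : ℤ) y := by ring
  rw [h2, norm_mul, norm_fourier_eq_one, mul_one]
  exact norm_fourier_sub_one_le n _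

theorem norm_nsmul_sub_le (n : ℕ) (x y : Tor) : ‖n • x - n • y‖ ≤ n * ‖x - y‖ := by
  rw [← smul_sub]
  exact norm_nsmul_le

theorem T_lip (m r : ℕ) (x y : Tor) :
    ‖T (m : ℤ) r x - T (m : ℤ) r y‖ ≤ 2 * Real.pi * m * 3 ^ (2 ^ r) * ‖x - y‖ := by
  have h2 : (0 : ℝ) < 2 ^ r := by positivity
  unfold T
  rw [← sub_div, norm_div, norm_pow, Complex.norm_ofNat, div_le_iff₀ h2, ← Finset.sum_sub_distrib]
  refine (norm_sum_le _ _).trans ?_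
  calc ∑ b ∈ range (2 ^ r), ‖(fourier ((m : ℤ) * 3 ^ b) x : ℂ) - fourier ((m : ℤ) * 3 ^ b) y‖
      ≤ ∑ _b ∈ range (2 ^ r), 2 * Real.pi * m * 3 ^ (2 ^ r) * ‖x - y‖ := by
        refine Finset.sum_le_sum fun b hb => ?_
        have h3 := fourier_lip (m * 3 ^ b) x y
        push_cast at h3
        refine h3.trans ?_
        have h4 : (3 : ℝ) ^ b ≤ 3 ^ (2 ^ r) :=
          pow_le_pow_right₀ (by norm_num) (Finset.mem_range.1 hb).le
        have h5 := Real.pi_pos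
        rw [← mul_assoc]
        gcongr
    _ = 2 * Real.pi * m * 3 ^ (2 ^ r) * ‖x - y‖ * 2 ^ r := by
        rw [Finset.sum_const, Finset.card_range, nsmul_eq_mul]
        push_cast
        ring

theorem Q_lip (D r : ℕ) (x y : Tor) :
    Q D r x - Q D r y ≤ 4 * Real.pi * D ^ 2 * 3 ^ (2 ^ r) * ‖x - y‖ := by
  unfold Q
  have h5 := Real.pi_pos
  have e : 1 / 2 ^ r + ∑ m ∈ Icc 1 D, ‖T (m : ℤ) r x‖ ^ 2 -
      (1 / 2 ^ r + ∑ m ∈ Icc 1 D, ‖T (m : ℤ) r y‖ ^ 2) =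
      ∑ m ∈ Icc 1 D, (‖T (m : ℤ) r x‖ ^ 2 - ‖T (m : ℤ) r y‖ ^ 2) := by
    rw [Finset.sum_sub_distrib]
    ring
  rw [e]
  calc ∑ m ∈ Icc 1 D, (‖T (m : ℤ) r x‖ ^ 2 - ‖T (m : ℤ) r y‖ ^ 2)
      ≤ ∑ _m ∈ Icc 1 D, 4 * Real.pi * D * 3 ^ (2 ^ r) * ‖x - y‖ := by
        refine Finset.sum_le_sum fun m hm => ?_
        have h1 := norm_T_le (m : ℤ) r x
        have h2 := norm_T_le (m : ℤ) r y
        have h3 : ‖T (m : ℤ) r x‖ - ‖T (m : ℤ) r y‖ ≤ ‖T (m : ℤ) r x - T (m : ℤ) r y‖ :=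
          norm_sub_norm_le _ _
        have h4 := T_lip m r x y
        have h6 : 2 * Real.pi * m * 3 ^ (2 ^ r) * ‖x - y‖ ≤
            2 * Real.pi * D * 3 ^ (2 ^ r) * ‖x - y‖ := by
          have : (m : ℝ) ≤ D := by exact_mod_cast (Finset.mem_Icc.1 hm).2
          gcongr
        have h7 := norm_nonneg (T (m : ℤ) r x)
        have h8 := norm_nonneg (T (m : ℤ) r y)
        have h9 := norm_nonneg (T (m : ℤ) r x - T (m : ℤ) r y)
        have e2 : ‖T (m : ℤ) r x‖ ^ 2 - ‖T (m : ℤ) r y‖ ^ 2 =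
            (‖T (m : ℤ) r x‖ - ‖T (m : ℤ) r y‖) * (‖T (m : ℤ) r x‖ + ‖T (m : ℤ) r y‖) := by
          ring
        rw [e2]
        calc _ ≤ ‖T (m : ℤ) r x - T (m : ℤ) r y‖ * (‖T (m : ℤ) r x‖ + ‖T (m : ℤ) r y‖) :=
              mul_le_mul_of_nonneg_right h3 (by linarith)
          _ ≤ ‖T (m : ℤ) r x - T (m : ℤ) r y‖ * 2 :=
              mul_le_mul_of_nonneg_left (by linarith) h9
          _ ≤ 2 * Real.pi * D * 3 ^ (2 ^ r) * ‖x - y‖ * 2 := by linarith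
          _ = _ := by ring
    _ = 4 * Real.pi * D ^ 2 * 3 ^ (2 ^ r) * ‖x - y‖ := by
        rw [Finset.sum_const, Nat.card_Icc, Nat.add_sub_cancel, nsmul_eq_mul]
        ring

theorem log_Q_sub (D r : ℕ) (x y : Tor) :
    Real.log (Q D r x) - Real.log (Q D r y) ≤
      2 ^ r * (4 * Real.pi * D ^ 2 * 3 ^ (2 ^ r) * ‖x - y‖) := by
  have h2 : (0 : ℝ) < 2 ^ r := by positivity
  have hx := Q_pos D r x
  have hy := Q_pos D r y
  have h5 := Real.pi_pos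
  have h1 := Real.log_le_sub_one_of_pos (div_pos hx hy)
  rw [Real.log_div hx.ne' hy.ne'] at h1
  refine h1.trans ?_
  have h3 : Q D r x / Q D r y - 1 = (Q D r x - Q D r y) / Q D r y := by
    field_simp
  rw [h3, div_le_iff₀ hy]
  have h4 := Q_lip D r x y
  have h6 := Q_ge D r y
  rw [div_le_iff₀ h2] at h6
  have h7 : 0 ≤ 4 * Real.pi * D ^ 2 * 3 ^ (2 ^ r) * ‖x - y‖ := by positivity
  calc _ ≤ 4 * Real.pi * D ^ 2 * 3 ^ (2 ^ r) * ‖x - y‖ * 1 := by linarith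
    _ ≤ 4 * Real.pi * D ^ 2 * 3 ^ (2 ^ r) * ‖x - y‖ * (Q D r y * 2 ^ r) :=
        mul_le_mul_of_nonneg_left h6 h7
    _ = _ := by ring

theorem sum_pow_le {L : ℕ} (hL : 1 ≤ L) (k : ℕ) :
    (∑ i ∈ range k, (2 : ℝ) ^ (L * i)) * 2 ^ L ≤ 2 * 2 ^ (L * k) := by
  induction k with
  | zero => simp
  | succ k ih =>
    have h1 : (2 : ℝ) ≤ 2 ^ L := by
      calc (2 : ℝ) = 2 ^ 1 := by norm_num
        _ ≤ 2 ^ L := pow_le_pow_right₀ (by norm_num) hL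
    have h2 : (0 : ℝ) < 2 ^ (L * k) := by positivity
    rw [Finset.sum_range_succ, add_mul, Nat.mul_succ, pow_add]
    have h3 : (2 : ℝ) * 2 ^ (L * k) ≤ 2 ^ (L * k) * 2 ^ L := by
      rw [mul_comm]
      exact mul_le_mul_of_nonneg_left h1 h2.le
    linarith

/-- B3 (helper28). -/
theorem osc (D r u k K : ℕ) (hD : D ≤ 2 ^ u) (hK : (r + 2 + u) * k + 2 * 2 ^ r + u + 3 ≤ K)
    (x y : Tor) (h : idx K x = idx K y) :
    Real.log (R D r (r + 2 + u) k x) - Real.log (R D r (r + 2 + u) k y) ≤ 1 := by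
  have hd := Helper35.AG.norm_sub_le_of_idx h
  have h5 := Real.pi_pos
  have hK2 : (0 : ℝ) < 2 ^ K := by positivity
  rw [le_div_iff₀ hK2] at hd
  rw [log_R, log_R, ← Finset.sum_sub_distrib]
  obtain ⟨C, hC⟩ : ∃ C : ℝ, C = 2 ^ r * (4 * Real.pi * D ^ 2 * 3 ^ (2 ^ r)) := ⟨_, rfl⟩
  have hC0 : 0 ≤ C := by rw [hC]; positivity
  have h1 : ∑ i ∈ range k, (Real.log (Q D r ((2 ^ ((r + 2 + u) * i) : ℕ) • x)) -
      Real.log (Q D r ((2 ^ ((r + 2 + u) * i) : ℕ) • y))) ≤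
      ∑ i ∈ range k, C * ((2 : ℝ) ^ ((r + 2 + u) * i) * ‖x - y‖) := by
    refine Finset.sum_le_sum fun i _ => ?_
    refine (log_Q_sub D r _ _).trans ?_
    have h2 := norm_nsmul_sub_le (2 ^ ((r + 2 + u) * i)) x y
    push_cast at h2
    calc _ = C * ‖(2 ^ ((r + 2 + u) * i) : ℕ) • x - (2 ^ ((r + 2 + u) * i) : ℕ) • y‖ := by
          rw [hC]
          ring
      _ ≤ _ := mul_le_mul_of_nonneg_left h2 hC0
  refine h1.trans ?_
  rw [← Finset.mul_sum, ← Finset.sum_mul]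
  have h3 := sum_pow_le (L := r + 2 + u) (by omega) k
  obtain ⟨S, hS⟩ : ∃ S : ℝ, S = ∑ i ∈ range k, (2 : ℝ) ^ ((r + 2 + u) * i) := ⟨_, rfl⟩
  rw [← hS] at h3 ⊢
  have hS0 : 0 ≤ S := by rw [hS]; positivity
  have hn := norm_nonneg (x - y)
  -- the constant
  have hD2 : (D : ℝ) ^ 2 ≤ 2 ^ u * 2 ^ u := by
    have : (D : ℝ) ≤ 2 ^ u := by exact_mod_cast hD
    nlinarith [Nat.cast_nonneg (α := ℝ) D]
  have h34 : (3 : ℝ) ^ (2 ^ r) ≤ 2 ^ (2 * 2 ^ r) := by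
    rw [pow_mul]
    exact pow_le_pow_left₀ (by norm_num) (by norm_num) _
  have hpi : Real.pi ≤ 4 := Real.pi_le_four
  have hC1 : C ≤ 2 ^ r * (4 * 4 * (2 ^ u * 2 ^ u) * 2 ^ (2 * 2 ^ r)) := by
    rw [hC]
    gcongr
  have hC2 : C * S ≤ 8 * (2 ^ u * 2 ^ (2 * 2 ^ r) * 2 ^ ((r + 2 + u) * k)) := by
    have e1 : (2 : ℝ) ^ (r + 2 + u) = 2 ^ r * 4 * 2 ^ u := by
      rw [pow_add, pow_add]
      norm_num
    rw [e1] at h3
    calc C * S ≤ 2 ^ r * (4 * 4 * (2 ^ u * 2 ^ u) * 2 ^ (2 * 2 ^ r)) * S :=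
          mul_le_mul_of_nonneg_right hC1 hS0
      _ = 4 * 2 ^ u * 2 ^ (2 * 2 ^ r) * (S * (2 ^ r * 4 * 2 ^ u)) := by ring
      _ ≤ 4 * 2 ^ u * 2 ^ (2 * 2 ^ r) * (2 * 2 ^ ((r + 2 + u) * k)) :=
          mul_le_mul_of_nonneg_left h3 (by positivity)
      _ = _ := by ring
  have hC3 : (8 : ℝ) * (2 ^ u * 2 ^ (2 * 2 ^ r) * 2 ^ ((r + 2 + u) * k)) ≤ 2 ^ K := by
    calc (8 : ℝ) * (2 ^ u * 2 ^ (2 * 2 ^ r) * 2 ^ ((r + 2 + u) * k)) =
          2 ^ ((r + 2 + u) * k + 2 * 2 ^ r + u + 3) := by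
          rw [pow_add, pow_add, pow_add]
          ring
      _ ≤ 2 ^ K := pow_le_pow_right₀ (by norm_num) hK
  calc C * (S * ‖x - y‖) = C * S * ‖x - y‖ := by ring
    _ ≤ 2 ^ K * ‖x - y‖ := mul_le_mul_of_nonneg_right (hC2.trans hC3) hn
    _ ≤ 1 := by linarith

end Helper66.ER
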